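import Pool.Agent.Run7.h418.E.Ug

/-!
Piece A3 of `Run7/h418/E/Ug.lean`: an algebraic equation over the small functions.
-/

set_option autoImplicit false

open Metric Set Filter Topology MvPolynomial

namespace Run7.h712.EU

open Run7.h418 Run7.h418.E Pool.Agent.Y190.OP Pool.Agent.W602.GT Pool.Agent.N155

open scoped IntermediateField.algebraAdjoinAdjoin

/-- the image of the small functions in the field -/
noncomputable def sm {n : ℕ} {S : Subalgebra ℂ (ℂ → ℂ)} {φ : ℂ → Mat (n + 1)} {i0 : Fin (n + 1)}
    {M : Type} [Field M] [Algebra ℂ M] {e : Rt n S →ₐ[ℂ] M} (he : Fz S φ i0 e) : S →ₐ[ℂ] M :=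
  AlgHom.ofLinearMap
    { toFun := fun s => e (X (Sum.inr s))
      map_add' := fun s t => by
        rw [← map_add, ← sub_eq_zero, ← map_sub, he.ker, mem_Rlt]
        intro z _
        rw [map_sub, map_add, eval_X, eval_X, eval_X]
        change (s.1 z + t.1 z) - (s.1 z + t.1 z) = 0
        rw [sub_self]
      map_smul' := fun c s => by
        rw [RingHom.id_apply, ← map_smul, ← sub_eq_zero, ← map_sub, he.ker, mem_Rlt]
        intro z _
        rw [map_sub, smul_eval, eval_X, eval_X]
        change c * s.1 z - c * s.1 z = 0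
        rw [sub_self] }
    (by
      change e (X (Sum.inr 1)) = 1
      rw [← map_one e, ← sub_eq_zero, ← map_sub, he.ker, mem_Rlt]
      intro z _
      rw [map_sub, map_one, eval_X]
      change (1 : ℂ) - 1 = 0
      rw [sub_self])
    (fun s t => by
      change e (X (Sum.inr (s * t))) = e (X (Sum.inr s)) * e (X (Sum.inr t))
      rw [← map_mul, ← sub_eq_zero, ← map_sub, he.ker, mem_Rlt]
      intro z _
      rw [map_sub, map_mul, eval_X, eval_X, eval_X]
      change s.1 z * t.1 z - s.1 z * t.1 z = 0
      rw [sub_self])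

theorem a3 : A3 := by
  intro n S φ i0 M _ _ e hS h hi0 he k hk
  have hra : Set.range (fun s : S => e (X (Sum.inr s))) = Set.range (sm he) := rfl
  rw [hra] at hk
  have hk2 : IsAlgebraic (Algebra.adjoin ℂ (Set.range (sm he))) (e (X (Sum.inl (Sum.inl k)))) :=
    (IsFractionRing.isAlgebraic_iff (Algebra.adjoin ℂ (Set.range (sm he)))
      (IntermediateField.adjoin ℂ (Set.range (sm he))) M).2 hk
  obtain ⟨p, hp0, hp⟩ := hk2
  have hadj : ∀ y ∈ Algebra.adjoin ℂ (Set.range (sm he)), ∃ s : S, sm he s = y := by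
    intro y hy
    have h1 : Algebra.adjoin ℂ (Set.range (sm he)) ≤ (sm he).range := by
      rw [Algebra.adjoin_le_iff]
      exact fun y hy => hy
    exact h1 hy
  choose P hP using fun i : ℕ => hadj (p.coeff i : M) (p.coeff i).2
  refine ⟨p.natDegree, fun i => (P i).1, fun i => (P i).2, ?_, ?_⟩
  · by_contra hcon
    push Not at hcon
    have h1 : P p.natDegree = 0 := Subtype.ext (funext hcon)
    have h2 := hP p.natDegree
    rw [h1, map_zero] at h2
    have h3 : p.leadingCoeff = 0 := Subtype.ext h2.symm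
    exact hp0 (Polynomial.leadingCoeff_eq_zero.1 h3)
  · have h1 : ∑ i ∈ Finset.range (p.natDegree + 1), e (X (Sum.inr (P i))) * e (X (Sum.inl (Sum.inl k))) ^ i = 0 := by
      rw [Polynomial.aeval_eq_sum_range] at hp
      rw [← hp]
      refine Finset.sum_congr rfl fun i _ => ?_
      rw [Algebra.smul_def]
      congr 1
      exact hP i
    have h2 : (∑ i ∈ Finset.range (p.natDegree + 1), X (Sum.inr (P i)) * X (Sum.inl (Sum.inl k)) ^ i : Rt n S) ∈
        Rlt S φ i0 := by
      rw [← he.ker, map_sum, ← h1]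
      refine Finset.sum_congr rfl fun i _ => ?_
      rw [map_mul, map_pow]
    intro z hz
    have h3 := mem_Rlt.1 h2 z hz
    rw [map_sum] at h3
    rw [← h3]
    refine Finset.sum_congr rfl fun i _ => ?_
    rw [map_mul, map_pow, eval_X, eval_X]
    rfl

end Run7.h712.EU
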